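import Pool.Agent.Helper97.FLC.Core

/-!
# The balanced partition has the largest product
-/

set_option autoImplicit false

namespace Pool.Agent.Helper97.FLC

open Finset

variable {N K r : ℕ}

/-- `b ≤ l * ((l + 1) / l) ^ (b - l)` for integers, in a form without negative exponents -/
lemma le_chord {l : ℕ} (hl : 1 ≤ l) (b : ℕ) :
    (b : ℝ) ≤ l * (((l : ℝ) + 1) / l) ^ ((b : ℤ) - l) := by
  have hl' : (0 : ℝ) < l := by exact_mod_cast hl
  rcases le_total l b with h | h
  · obtain ⟨d, rfl⟩ := Nat.exists_eq_add_of_le h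
    have e : (((l + d : ℕ) : ℤ) - l) = (d : ℤ) := by push_cast; ring
    rw [e, zpow_natCast]
    have h1 := one_add_mul_le_pow (a := 1 / (l : ℝ)) (by
      have : (0 : ℝ) ≤ 1 / l := by positivity
      linarith) d
    have h2 : 1 + 1 / (l : ℝ) = ((l : ℝ) + 1) / l := by field_simp
    rw [h2] at h1
    calc ((l + d : ℕ) : ℝ) = l * (1 + d * (1 / (l : ℝ))) := by push_cast; field_simp
      _ ≤ _ := mul_le_mul_of_nonneg_left h1 hl'.le
  · obtain ⟨d, rfl⟩ := Nat.exists_eq_add_of_le h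
    have e : ((b : ℤ) - ((b + d : ℕ) : ℤ)) = -(d : ℤ) := by push_cast; ring
    rw [e, zpow_neg, zpow_natCast, ← inv_pow]
    set l : ℝ := ((b + d : ℕ) : ℝ) with hld
    have hbl : (b : ℝ) = l - d := by rw [hld]; push_cast; ring
    have h1 := one_add_mul_le_pow (a := -(1 / (l + 1))) (by
      have : 1 / (l + 1) ≤ 1 := by
        rw [div_le_one (by positivity)]
        linarith
      linarith) d
    have h2 : 1 + -(1 / (l + 1)) = ((l + 1) / l)⁻¹ := by field_simp; ring
    rw [h2] at h1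
    calc (b : ℝ) = l - d := hbl
      _ ≤ l * (1 + d * -(1 / (l + 1))) := by
        have h3 : l * (1 + d * -(1 / (l + 1))) = l - d * (l / (l + 1)) := by field_simp; ring
        rw [h3]
        have h4 : l / (l + 1) ≤ 1 := by
          rw [div_le_one (by positivity)]
          linarith
        have h5 : (d : ℝ) * (l / (l + 1)) ≤ d * 1 :=
          mul_le_mul_of_nonneg_left h4 (Nat.cast_nonneg d)
        linarith
      _ ≤ _ := mul_le_mul_of_nonneg_left h1 hl'.le

/-- the balanced partition has the largest product -/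
theorem balanced_max (hK : 0 < K) (hKN : K ≤ N) (g : Fin K → ℕ) (hg : ∀ a, g a = N / K ∨ g a = N / K + 1)
    (hgs : ∑ a, g a = N) (c κ : Fin r → ℕ) (hκ : ∑ i, κ i = K) (hc : ∑ i, κ i * c i = N) :
    ∏ i, (c i : ℝ) ^ κ i ≤ ∏ a, (g a : ℝ) := by
  set l : ℕ := N / K with hl
  have hl1 : 1 ≤ l := Nat.div_pos hKN hK
  have hl' : (0 : ℝ) < l := by exact_mod_cast hl1
  set ρ : ℝ := ((l : ℝ) + 1) / l with hρ
  have hρ0 : 0 < ρ := by positivity
  have h1 : ∏ i, (c i : ℝ) ^ κ i ≤ ∏ i, ((l : ℝ) * ρ ^ ((c i : ℤ) - l)) ^ κ i := by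
    apply Finset.prod_le_prod (fun i _ => by positivity)
    intro i _
    exact pow_le_pow_left₀ (Nat.cast_nonneg _) (le_chord hl1 (c i)) _
  have h2 : ∏ a, (g a : ℝ) = ∏ a, ((l : ℝ) * ρ ^ ((g a : ℤ) - l)) := by
    apply Finset.prod_congr rfl
    intro a _
    rcases hg a with h | h
    · rw [h]; simp
    · rw [h]
      have e : (((l + 1 : ℕ) : ℤ) - l) = 1 := by push_cast; ring
      rw [e, zpow_one, hρ]
      push_cast
      field_simp
  have h3 : ∏ i, ((l : ℝ) * ρ ^ ((c i : ℤ) - l)) ^ κ i = (l : ℝ) ^ K * ρ ^ ((N : ℤ) - K * l) := by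
    have e : ∀ i, ((l : ℝ) * ρ ^ ((c i : ℤ) - l)) ^ κ i =
        (l : ℝ) ^ κ i * ρ ^ (((κ i * c i : ℕ) : ℤ) - κ i * l) := by
      intro i
      rw [mul_pow, ← zpow_natCast (ρ ^ ((c i : ℤ) - l)), ← zpow_mul]
      congr 2
      push_cast
      ring
    rw [Finset.prod_congr rfl (fun i _ => e i), Finset.prod_mul_distrib, Finset.prod_pow_eq_pow_sum,
      hκ]
    congr 1
    have e2 : ∀ s : Finset (Fin r), ∏ i ∈ s, ρ ^ (((κ i * c i : ℕ) : ℤ) - κ i * l) =
        ρ ^ (∑ i ∈ s, (((κ i * c i : ℕ) : ℤ) - κ i * l)) := by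
      intro s
      induction s using Finset.induction_on with
      | empty => simp
      | insert a s ha ih => rw [Finset.prod_insert ha, Finset.sum_insert ha, zpow_add₀ hρ0.ne', ih]
    rw [e2, Finset.sum_sub_distrib, ← Finset.sum_mul]
    congr 1
    have e3 : ∑ i, ((κ i * c i : ℕ) : ℤ) = (N : ℤ) := by exact_mod_cast congrArg (Nat.cast (R := ℤ)) hc
    have e4 : ∑ i, (κ i : ℤ) = (K : ℤ) := by exact_mod_cast congrArg (Nat.cast (R := ℤ)) hκ
    rw [e3, e4]
  have h4 : ∏ a, ((l : ℝ) * ρ ^ ((g a : ℤ) - l)) = (l : ℝ) ^ K * ρ ^ ((N : ℤ) - K * l) := by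
    rw [Finset.prod_mul_distrib, Finset.prod_const, Finset.card_univ, Fintype.card_fin]
    congr 1
    have e2 : ∀ s : Finset (Fin K), ∏ i ∈ s, ρ ^ ((g i : ℤ) - l) =
        ρ ^ (∑ i ∈ s, ((g i : ℤ) - l)) := by
      intro s
      induction s using Finset.induction_on with
      | empty => simp
      | insert a s ha ih => rw [Finset.prod_insert ha, Finset.sum_insert ha, zpow_add₀ hρ0.ne', ih]
    rw [e2, Finset.sum_sub_distrib, Finset.sum_const, Finset.card_univ, Fintype.card_fin]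
    congr 1
    have e3 : ∑ i, (g i : ℤ) = (N : ℤ) := by exact_mod_cast congrArg (Nat.cast (R := ℤ)) hgs
    rw [e3]
    simp
  rw [h2, h4, ← h3]
  exact h1

end Pool.Agent.Helper97.FLC
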