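import Pool.Agent.Helper58.FU.Geo

/-!
# Volume of the convex hull of a tight frame: classes of vectors

Written by helper97, based on helper58's `SD_entropy`.
-/

set_option autoImplicit false

namespace Pool.Agent.Helper97.FLC

open Finset Matrix MeasureTheory Helper484 Pool.Agent.Helper7.Simplex Pool.Agent.Y568.FL
  Pool.Agent.Helper58.FU
open scoped ENNReal

variable {N m K r : ℕ}

/-- entropy inequality for one class -/
lemma one_class {ι : Type*} (s : Finset ι) {q : ι → ℝ} (hq : ∀ j ∈ s, 0 ≤ q j) (k : ℕ)
    (hs : ∑ j ∈ s, q j = k) :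
    (√(((s.card : ℝ) / k) ^ k))⁻¹ ≤ ∏ j ∈ s, q j ^ (q j / 2) := by
  rcases Nat.eq_zero_or_pos k with h0 | h0
  · subst h0
    have h1 : ∀ j ∈ s, q j = 0 := by
      rw [← Finset.sum_eq_zero_iff_of_nonneg hq]
      simpa using hs
    rw [Finset.prod_congr rfl (fun j hj => by rw [h1 j hj, zero_div, Real.rpow_zero])]
    simp
  · have hk : (0 : ℝ) < k := by exact_mod_cast h0
    have hne : s.Nonempty := by
      by_contra h
      rw [Finset.not_nonempty_iff_eq_empty] at h
      subst h
      simp only [Finset.sum_empty] at hs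
      have h7 : k = 0 := by exact_mod_cast hs.symm
      omega
    have hn : (0 : ℝ) < s.card := by exact_mod_cast hne.card_pos
    have hr : 0 < (s.card : ℝ) / k := div_pos hn hk
    have hterm : ∀ j ∈ s, Real.exp (-(q j / 2) * Real.log (s.card / k) +
        (q j / 2 - k / (2 * s.card))) ≤ q j ^ (q j / 2) := by
      intro j hj
      rcases (hq j hj).eq_or_lt with h0 | h0
      · rw [← h0]
        simp only [zero_div, neg_zero, zero_mul, zero_sub, zero_add, Real.rpow_zero]
        exact Real.exp_le_one_iff.mpr (by
          have : 0 ≤ (k:ℝ) / (2 * s.card) := by positivity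
          linarith)
      · rw [Real.rpow_def_of_pos h0]
        apply Real.exp_le_exp.mpr
        have h1 := Real.log_le_sub_one_of_pos (x := k / (s.card * q j)) (by positivity)
        have h2 : Real.log (k / (s.card * q j)) = -Real.log (s.card / k) - Real.log (q j) := by
          rw [Real.log_div (by positivity) (by positivity), Real.log_mul (by positivity) h0.ne',
            Real.log_div (by positivity) (by positivity)]
          ring
        rw [h2] at h1
        have h3 := mul_le_mul_of_nonneg_left h1 (by positivity : 0 ≤ q j / 2)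
        have h4 : q j / 2 * (k / (s.card * q j) - 1) = k / (2 * s.card) - q j / 2 := by
          field_simp
        rw [h4] at h3
        linarith
    have h5 : ∏ j ∈ s, Real.exp (-(q j / 2) * Real.log (s.card / k) +
        (q j / 2 - k / (2 * s.card))) = (√(((s.card : ℝ) / k) ^ k))⁻¹ := by
      rw [← Real.exp_sum, Finset.sum_add_distrib, ← Finset.sum_mul, Finset.sum_sub_distrib,
        Finset.sum_neg_distrib, ← Finset.sum_div, hs, Finset.sum_const, nsmul_eq_mul]
      have e : -((k:ℝ) / 2) * Real.log (s.card / k) + (k / 2 - s.card * (k / (2 * s.card))) =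
          -(Real.log (√(((s.card : ℝ) / k) ^ k))) := by
        rw [Real.log_sqrt (by positivity), Real.log_pow]
        field_simp
        ring
      rw [e, Real.exp_neg, Real.exp_log (Real.sqrt_pos.mpr (by positivity))]
    rw [← h5]
    exact Finset.prod_le_prod (fun j _ => (Real.exp_pos _).le) hterm

/-- the number of elements of a class -/
abbrev cs (A : Fin N → Fin r) (i : Fin r) : ℕ := (univ.filter fun j => A j = i).card

/-- the bound -/
noncomputable def bd (A : Fin N → Fin r) (κ : Fin r → ℕ) : ℝ :=
  ∏ i, ((cs A i : ℝ) / κ i) ^ κ i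

lemma class_entropy {q : Fin N → ℝ} (hq : ∀ j, 0 ≤ q j) (A : Fin N → Fin r) (κ : Fin r → ℕ)
    (hs : ∀ i, ∑ j ∈ univ.filter (fun j => A j = i), q j = κ i) :
    (√(bd A κ))⁻¹ ≤ ∏ j, q j ^ (q j / 2) := by
  have h1 : ∏ j, q j ^ (q j / 2) = ∏ i, ∏ j ∈ univ.filter (fun j => A j = i), q j ^ (q j / 2) :=
    (Finset.prod_fiberwise univ A _).symm
  have h2 : (√(bd A κ))⁻¹ = ∏ i, (√(((cs A i : ℝ) / κ i) ^ κ i))⁻¹ := by
    unfold bd
    rw [Real.sqrt_prod _ (fun i _ => by positivity), Finset.prod_inv_distrib]
  rw [h1, h2]
  exact Finset.prod_le_prod (fun i _ => by positivity)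
    (fun i _ => one_class _ (fun j _ => hq j) _ (hs i))

lemma sum_marg_class (hN : N = m + K) {x : Fin N → Fin m → ℝ} {b : Fin N → ℝ} (h : 0 < SD x b)
    (A : Fin N → Fin r) (κ : Fin r → ℕ) (hκ : ∑ i, κ i = K)
    (hc : ∀ I ∈ FF x b, ∀ i, (univ.filter fun a => A (I a) = i).card + κ i ≤ cs A i) (i : Fin r) :
    ∑ j ∈ univ.filter (fun j => A j = i), marg x b j = κ i := by
  classical
  have h0 : ∀ j, marg x b j = ∑ I ∈ FF x b, (if ¬ ∃ a, I a = j then |D x I| / SD x b else 0) := by
    intro j
    unfold marg
    rw [Finset.sum_filter]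
  rw [Finset.sum_congr rfl (fun j _ => h0 j), Finset.sum_comm]
  have h1 : ∀ I ∈ FF x b, ∑ j ∈ univ.filter (fun j => A j = i),
      (if ¬ ∃ a, I a = j then |D x I| / SD x b else 0) = κ i * (|D x I| / SD x b) := by
    intro I hI
    have hinj : Function.Injective I := (Finset.mem_filter.mp hI).2.1.injective
    rw [← Finset.sum_filter, Finset.sum_const, nsmul_eq_mul]
    congr 1
    -- the number of elements of the class outside `I`
    have h2 : ∀ i, ((univ.filter (fun j => A j = i)).filter (fun j => ¬ ∃ a, I a = j)).card +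
        (univ.filter fun a => A (I a) = i).card = cs A i := by
      intro i
      have h3 : (univ.filter fun a => A (I a) = i).card =
          ((univ.filter (fun j => A j = i)).filter (fun j => ∃ a, I a = j)).card := by
        rw [← Finset.card_image_of_injective _ hinj]
        congr 1
        ext j
        simp only [mem_image, mem_filter, mem_univ, true_and]
        constructor
        · rintro ⟨a, h4, rfl⟩
          exact ⟨h4, a, rfl⟩
        · rintro ⟨h4, a, rfl⟩
          exact ⟨a, h4, rfl⟩
      rw [h3, add_comm]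
      exact Finset.card_filter_add_card_filter_not _
    have h4 : ∀ i, κ i ≤ ((univ.filter (fun j => A j = i)).filter (fun j => ¬ ∃ a, I a = j)).card := by
      intro i
      have := h2 i
      have := hc I hI i
      omega
    have h5 : ∑ i, κ i = ∑ i, ((univ.filter (fun j => A j = i)).filter
        (fun j => ¬ ∃ a, I a = j)).card := by
      have h6 : ∑ i, (((univ.filter (fun j => A j = i)).filter (fun j => ¬ ∃ a, I a = j)).card +
          (univ.filter fun a => A (I a) = i).card) = ∑ i, cs A i :=
        Finset.sum_congr rfl fun i _ => h2 i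
      rw [Finset.sum_add_distrib] at h6
      have h7 : ∑ i, (univ.filter fun a => A (I a) = i).card = m := by
        rw [← Finset.card_eq_sum_card_fiberwise (fun a _ => mem_univ _)]
        simp
      have h8 : ∑ i, cs A i = N := by
        unfold cs
        rw [← Finset.card_eq_sum_card_fiberwise (fun a _ => mem_univ _)]
        simp
      omega
    have h9 := (Finset.sum_eq_sum_iff_of_le (fun i _ => h4 i)).1 h5 i (mem_univ i)
    exact_mod_cast h9.symm
  rw [Finset.sum_congr rfl h1, ← Finset.mul_sum, sum_p h, mul_one]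

/-- **The determinant bound with classes.** -/
theorem SD_class (hN : N = m + K) {x : Fin N → Fin m → ℝ} {b : Fin N → ℝ} (hx : Fr x)
    (hgen : Gen x b) (A : Fin N → Fin r) (κ : Fin r → ℕ) (hκ : ∑ i, κ i = K)
    (hc : ∀ I ∈ FF x b, ∀ i, (univ.filter fun a => A (I a) = i).card + κ i ≤ cs A i) :
    SD x b ≤ √(bd A κ) := by
  have hSD : 0 ≤ SD x b := Finset.sum_nonneg fun I _ => abs_nonneg _
  rcases hSD.eq_or_lt with h0 | h0
  · rw [← h0]; positivity
  · have h1 := SD_entropy hN hx hgen h0
    have hm := sum_marg_class hN h0 A κ hκ hc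
    have h2 := class_entropy (marg_nonneg x b) A κ hm
    have hpos : 0 < √(bd A κ) := by
      apply Real.sqrt_pos.mpr
      unfold bd
      apply Finset.prod_pos
      intro i _
      rcases Nat.eq_zero_or_pos (κ i) with hk | hk
      · rw [hk, pow_zero]; exact one_pos
      · have hcs : 0 < cs A i := by
          by_contra hcon
          have h3 : cs A i = 0 := by omega
          have h4 := hm i
          rw [Finset.card_eq_zero.mp h3, Finset.sum_empty] at h4
          have h7 : κ i = 0 := by exact_mod_cast h4.symm
          omega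
        have h5 : (0 : ℝ) < cs A i := by exact_mod_cast hcs
        have h6 : (0 : ℝ) < κ i := by exact_mod_cast hk
        positivity
    have h4 := mul_le_mul_of_nonneg_left h2 h0.le
    have h5 := h4.trans h1
    rwa [← div_eq_mul_inv, div_le_one hpos] at h5

/-- **Volume of the convex hull of a centred tight frame with classes.** -/
theorem hull_class (hN : N = m + K) {x : Fin N → Fin m → ℝ} (hx : Fr x)
    (hsum : ∑ j, x j = 0) (A : Fin N → Fin r) (κ : Fin r → ℕ) (hκ : ∑ i, κ i = K)
    (hc : ∀ I : Fin m → Fin N, D x I ≠ 0 → (∀ j, x j ⬝ᵥ Y x (fun _ => 1) I ≤ 1) →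
      ∀ i, (univ.filter fun a => A (I a) = i).card + κ i ≤ cs A i) :
    volume (convexHull ℝ (Set.range x)) ≤ ENNReal.ofReal (√(bd A κ) / m.factorial) := by
  classical
  obtain ⟨b, hb, hgen, hone⟩ := exists_generic_rhs x
  have hbpos : ∀ j, 0 < b j := fun j => by linarith [(hb j).1]
  refine (vol_le hbpos hone (hrep_of hx hsum)).trans (ENNReal.ofReal_le_ofReal ?_)
  refine div_le_div_of_nonneg_right (SD_class hN hx hgen A κ hκ ?_) (by positivity)
  intro I hI
  have hF := (Finset.mem_filter.mp hI).2
  exact hc I hF.2.1 (hone I hF.2.1 hF.2.2)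

end Pool.Agent.Helper97.FLC
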