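import Pool.Agent.Helper97.FLC.Bal

/-!
# Projections of the regular simplex: facet simplices and classes of vertices
-/

set_option autoImplicit false

namespace Pool.Agent.Helper97.FLC

open Finset Matrix MeasureTheory Pool.Agent.Helper484 Pool.Agent.Helper7.Simplex
  Pool.Agent.Y568.FL Pool.Agent.Helper58.FU
open scoped ENNReal

variable {V : Type*} [NormedAddCommGroup V] [InnerProductSpace ℝ V] [FiniteDimensional ℝ V]

/-- The centroid. -/
noncomputable def centre {n : ℕ} (v : Fin (n + 1) → V) : V := ((n : ℝ) + 1)⁻¹ • ∑ j, v j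

/-- facet simplices -/
def IsFS {n m : ℕ} (v : Fin (n + 1) → V) (F : Submodule ℝ V) (I : Fin m → Fin (n + 1)) : Prop :=
  LinearIndependent ℝ (fun a => F.starProjection (v (I a) - centre v)) ∧
    ∃ w ∈ F, (∀ j, inner ℝ w (v j - centre v) ≤ 1) ∧ ∀ a, inner ℝ w (v (I a) - centre v) = 1

theorem proj_class [MeasurableSpace V] [BorelSpace V] {n k r : ℕ} (hkn : k ≤ n)
    (hV : Module.finrank ℝ V = n) (v : Fin (n + 1) → V)
    (hv : ∀ i j, i ≠ j → dist (v i) (v j) = √2)
    (F : Submodule ℝ V) (hF : Module.finrank ℝ F = n - k)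
    (A : Fin (n + 1) → Fin r) (κ : Fin r → ℕ) (hκ : ∑ i, κ i = k + 1)
    (hc : ∀ I : Fin (n - k) → Fin (n + 1), IsFS v F I →
      ∀ i, (univ.filter fun a => A (I a) = i).card + κ i ≤ cs A i) :
    J7762.projVol (n - k) F (convexHull ℝ (Set.range v)) ≤
      ENNReal.ofReal (√(bd A κ) / (n - k).factorial) := by
  obtain ⟨L, h1, h2, h3, h4, h5⟩ := coord v (J7761.R_frame hV v hv) F hF
  rw [h1]
  refine hull_class (N := n + 1) (m := n - k) (K := k + 1) (by omega) h3 h2 A κ hκ ?_
  intro I hD hI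
  apply hc I
  constructor
  · apply LinearIndependent.of_comp L
    have e : (L ∘ fun a => F.starProjection (v (I a) - centre v)) =
        fun a => L (v (I a) - centre v) := by
      funext a
      show L (F.starProjection (v (I a) - centre v)) = L (v (I a) - centre v)
      have h6 := h4 _ (F.sub_starProjection_mem_orthogonal (v (I a) - centre v))
      rw [map_sub, sub_eq_zero] at h6
      exact h6.symm
    rw [e]
    have h7 := Matrix.linearIndependent_cols_of_det_ne_zero hD
    exact h7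
  · have hsurj : ∃ w ∈ F, L w = Y (fun i => L (v i - ((n : ℝ) + 1)⁻¹ • ∑ j, v j)) (fun _ => 1) I := by
      have hinj : Function.Injective (L.comp F.subtype) := by
        rw [← LinearMap.ker_eq_bot, LinearMap.ker_eq_bot']
        intro y hy
        have h6 := h5 (y : V) (y : V) y.2
        have h7 : L (y : V) = 0 := hy
        rw [h7, dotProduct_zero] at h6
        have h8 : (y : V) = 0 := inner_self_eq_zero.1 h6.symm
        exact_mod_cast h8
      have hs : Function.Surjective (L.comp F.subtype) := by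
        rw [← LinearMap.injective_iff_surjective_of_finrank_eq_finrank]
        · exact hinj
        · rw [hF]; simp
      obtain ⟨w, hw⟩ := hs (Y (fun i => L (v i - ((n : ℝ) + 1)⁻¹ • ∑ j, v j)) (fun _ => 1) I)
      exact ⟨w, w.2, hw⟩
    obtain ⟨w, hwF, hw⟩ := hsurj
    refine ⟨w, hwF, fun j => ?_, fun a => ?_⟩
    · rw [← h5 w _ hwF, hw, dotProduct_comm]
      exact hI j
    · rw [← h5 w _ hwF, hw, dotProduct_comm]
      exact dot_Y hD (fun _ => 1) a

/-- a projection close to the one onto `W` has no facet simplex containing a block -/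
lemma near_block {n k m : ℕ} (hV : Module.finrank ℝ V = n) (v : Fin (n + 1) → V)
    (hv : ∀ i j, i ≠ j → dist (v i) (v j) = √2) (p : Fin (n + 1) → Fin (k + 1))
    (F : Submodule ℝ V)
    (hnear : ∀ z : V, ‖F.starProjection z -
      (Submodule.span ℝ {x | ∃ i j, p i = p j ∧ x = v i - v j}).starProjection z‖ ≤
        ‖z‖ / ((n : ℝ) + 1))
    (I : Fin m → Fin (n + 1)) (hI : IsFS v F I) (a : Fin (k + 1)) (ha : ∃ i, p i = a) :
    ∃ j, p j = a ∧ ∀ c, I c ≠ j := by
  classical
  by_contra hcon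
  push Not at hcon
  obtain ⟨-, w, hwF, hw1, hw2⟩ := hI
  obtain ⟨q, g1, g2⟩ := gram v hv
  have hfr := J7761.R_frame hV v hv
  set W : Submodule ℝ V := Submodule.span ℝ {x | ∃ i j, p i = p j ∧ x = v i - v j} with hW
  set u : Fin (n + 1) → V := fun j => v j - centre v with hu
  have hn1 : (0 : ℝ) < (n : ℝ) + 1 := by positivity
  have hfru : ∀ x : V, ∑ i, (inner ℝ (u i) x) ^ 2 = ‖x‖ ^ 2 := hfr
  have hsum : ∑ i, u i = 0 := by
    simp only [hu, Finset.sum_sub_distrib, Finset.sum_const, Finset.card_univ, Fintype.card_fin]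
    rw [centre, ← Nat.cast_smul_eq_nsmul ℝ, smul_smul]
    push_cast
    rw [mul_inv_cancel₀ hn1.ne', one_smul, sub_self]
  -- norms
  have hun : ∀ j, ‖u j‖ ≤ 1 := by
    intro j
    have h1 : (inner ℝ (u j) (u j)) ^ 2 ≤ ‖u j‖ ^ 2 := by
      rw [← hfru (u j)]
      exact Finset.single_le_sum (f := fun i => (inner ℝ (u i) (u j)) ^ 2)
        (fun i _ => sq_nonneg _) (mem_univ j)
    rw [real_inner_self_eq_norm_sq] at h1
    have h2 : 0 ≤ ‖u j‖ := norm_nonneg _
    by_contra h3
    push Not at h3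
    nlinarith [mul_pos (sub_pos.2 h3) (pow_pos (lt_trans one_pos h3) 2), pow_pos (lt_trans one_pos h3) 2]
  have hwn : ‖w‖ ^ 2 ≤ (n : ℝ) * (n + 1) := by
    rw [← hfru w]
    have hy1 : ∀ j, inner ℝ (u j) w ≤ 1 := fun j => by rw [real_inner_comm]; exact hw1 j
    have hys : ∑ j, inner ℝ (u j) w = 0 := by rw [← sum_inner, hsum, inner_zero_left]
    have hyn : ∀ j, -(n : ℝ) ≤ inner ℝ (u j) w := by
      intro j
      have h1 : inner ℝ (u j) w + ∑ i ∈ univ.erase j, inner ℝ (u i) w = 0 :=
        (Finset.add_sum_erase univ (fun i => inner ℝ (u i) w) (mem_univ j)).trans hys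
      have h2 : ∑ i ∈ univ.erase j, inner ℝ (u i) w ≤ ∑ i ∈ univ.erase j, (1 : ℝ) :=
        Finset.sum_le_sum fun i _ => hy1 i
      rw [Finset.sum_const, Finset.card_erase_of_mem (mem_univ j), Finset.card_univ,
        Fintype.card_fin, nsmul_eq_mul, mul_one, Nat.add_sub_cancel] at h2
      linarith
    have h3 : ∀ j, (inner ℝ (u j) w) ^ 2 ≤ n + (1 - (n : ℝ)) * inner ℝ (u j) w := by
      intro j
      nlinarith [mul_nonneg (sub_nonneg.2 (hy1 j)) (by linarith [hyn j] :
        0 ≤ inner ℝ (u j) w + (n : ℝ))]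
    calc ∑ j, (inner ℝ (u j) w) ^ 2 ≤ ∑ j, ((n : ℝ) + (1 - (n : ℝ)) * inner ℝ (u j) w) :=
          Finset.sum_le_sum fun j _ => h3 j
      _ = (n : ℝ) * (n + 1) := by
        rw [Finset.sum_add_distrib, ← Finset.mul_sum, hys, Finset.sum_const, Finset.card_univ,
          Fintype.card_fin, nsmul_eq_mul]
        push_cast
        ring
  have hwlt : ‖w‖ < (n : ℝ) + 1 := by
    have h0 : 0 ≤ ‖w‖ := norm_nonneg _
    by_contra h3
    push Not at h3
    have h4 : ((n : ℝ) + 1) ^ 2 ≤ ‖w‖ ^ 2 := pow_le_pow_left₀ hn1.le h3 2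
    nlinarith
  -- the block sum
  set B : Finset (Fin (n + 1)) := univ.filter (fun j => p j = a) with hB
  set s : V := ∑ j ∈ B, u j with hs
  have hb : 0 < B.card := by
    obtain ⟨i, hi⟩ := ha
    exact Finset.card_pos.mpr ⟨i, by simp [hB, hi]⟩
  have hb' : (0 : ℝ) < B.card := by exact_mod_cast hb
  have hws : inner ℝ w s = B.card := by
    rw [hs, inner_sum]
    have h1 : ∀ j ∈ B, inner ℝ w (u j) = (1 : ℝ) := by
      intro j hj
      obtain ⟨c, hc⟩ := hcon j (Finset.mem_filter.1 hj).2
      rw [← hc]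
      exact hw2 c
    rw [Finset.sum_congr rfl h1]
    simp
  have hsn : ‖s‖ ≤ B.card := by
    calc ‖s‖ ≤ ∑ j ∈ B, ‖u j‖ := norm_sum_le _ _
      _ ≤ ∑ j ∈ B, (1 : ℝ) := Finset.sum_le_sum fun j _ => hun j
      _ = B.card := by simp
  have hgram : ∀ i r, inner ℝ (u i) (u r) = (q - 1) + if i = r then (1 : ℝ) else 0 := by
    intro i r
    by_cases h : i = r
    · subst h
      rw [if_pos rfl]
      have := g1 i
      show inner ℝ (v i - centre v) (v i - centre v) = _
      unfold centre
      rw [this]; ring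
    · rw [if_neg h]
      have := g2 i r h
      show inner ℝ (v i - centre v) (v r - centre v) = _
      unfold centre
      rw [this]; ring
  have hsW : s ∈ Wᗮ := by
    rw [Submodule.mem_orthogonal]
    intro y hy
    have hle : W ≤ (Submodule.span ℝ {s})ᗮ := by
      rw [hW, Submodule.span_le]
      rintro x ⟨i, j, hij, rfl⟩
      rw [SetLike.mem_coe, Submodule.mem_orthogonal_singleton_iff_inner_left]
      have e : v i - v j = u i - u j := by simp [hu]
      rw [e, inner_sub_left, hs, inner_sum, inner_sum]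
      simp only [hgram, Finset.sum_add_distrib, Finset.sum_ite_eq, hB, Finset.mem_filter,
        mem_univ, true_and, hij]
      ring
    exact (Submodule.mem_orthogonal_singleton_iff_inner_left.1 (hle hy))
  have hPW : W.starProjection s = 0 := by
    rw [Submodule.starProjection_apply_eq_zero_iff]
    exact hsW
  have hkey : (B.card : ℝ) = inner ℝ w (F.starProjection s) := by
    rw [← hws, ← Submodule.inner_starProjection_left_eq_right,
      Submodule.starProjection_eq_self_iff.2 hwF]
  have h1 : (B.card : ℝ) ≤ ‖w‖ * ‖F.starProjection s‖ := by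
    rw [hkey]
    exact real_inner_le_norm _ _
  have h2 := hnear s
  rw [hPW, sub_zero] at h2
  have h3 : ‖F.starProjection s‖ ≤ B.card / ((n : ℝ) + 1) :=
    h2.trans (div_le_div_of_nonneg_right hsn hn1.le)
  have h4 : ‖w‖ * ‖F.starProjection s‖ ≤ ‖w‖ * (B.card / ((n : ℝ) + 1)) :=
    mul_le_mul_of_nonneg_left h3 (norm_nonneg _)
  have h5 : ‖w‖ * (B.card / ((n : ℝ) + 1)) < B.card := by
    rw [← mul_div_assoc, div_lt_iff₀ hn1]
    nlinarith
  linarith

end Pool.Agent.Helper97.FLC
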